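import Pool.Agent.PXE.Stmts
import Pool.Agent.Helper48_PX.GAX

set_option autoImplicit false

/-!
# Squad PXE, row IRR: factors of forms are forms
-/

namespace Pool.Agent.PXE.H60

open MvPolynomial
open Pool.Agent.PX (IsLo)

theorem vars_pd {E : Type} [Field E] (i : ℕ) (p : MvPolynomial ℕ E) :
    (pderiv i p).vars ⊆ p.vars := by
  classical
  intro j hj
  obtain ⟨m, hm, hjm⟩ := (mem_vars_iff_mem_support j).1 hj
  rw [mem_support_iff, coeff_pderiv] at hm
  have h1 : coeff (m + Finsupp.single i 1) p ≠ 0 := left_ne_zero_of_mul hm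
  refine (mem_vars_iff_mem_support j).2 ⟨_, mem_support_iff.2 h1, ?_⟩
  rw [Finsupp.mem_support_iff] at hjm ⊢
  rw [Finsupp.add_apply]
  omega

theorem irr (tvb : TvbStmt) : IrrStmt := by
  classical
  intro E _ _ c f g hf0 hlo ⟨h, hfg⟩ i0
  have hg0 : g ≠ 0 := by
    rintro rfl
    exact hf0 (by rw [hfg, zero_mul])
  have hh0 : h ≠ 0 := by
    rintro rfl
    exact hf0 (by rw [hfg, mul_zero])
  have hv : ∀ i, i ∈ f.vars ↔ i ∈ g.vars ∨ i ∈ h.vars := by
    intro i
    rw [mem_vars_iff_degreeOf_ne_zero, mem_vars_iff_degreeOf_ne_zero,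
      mem_vars_iff_degreeOf_ne_zero, hfg, degreeOf_mul_eq hg0 hh0]
    omega
  by_cases hc : f.vars.card ≤ 2 * c + 2
  · refine le_trans (Finset.card_le_card ?_) hc
    exact (vars_pd i0 g).trans fun j hj => (hv j).2 (Or.inl hj)
  have hsy : ∀ i j, j ∈ (pderiv i f).vars → i ∈ (pderiv j f).vars := fun i j =>
    Pool.Agent.PX.H48.vars_symm
  have hex : ∀ i j : ℕ, ∃ l ∈ f.vars, l ≠ i ∧ l ≠ j ∧ l ∉ (pderiv i f).vars ∧
      l ∉ (pderiv j f).vars := by
    intro i j
    by_contra hcon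
    push Not at hcon
    have h1 : f.vars ⊆ ({i, j} : Finset ℕ) ∪ ((pderiv i f).vars ∪ (pderiv j f).vars) := by
      intro l hl
      by_contra hl2
      simp only [Finset.mem_union, Finset.mem_insert, Finset.mem_singleton, not_or] at hl2
      exact hl2.2.2 (hcon l hl hl2.1.1 hl2.1.2 hl2.2.1)
    have h2 := Finset.card_le_card h1
    have h3 := Finset.card_union_le ({i, j} : Finset ℕ) ((pderiv i f).vars ∪ (pderiv j f).vars)
    have h4 := Finset.card_union_le (pderiv i f).vars (pderiv j f).vars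
    have h5 : ({i, j} : Finset ℕ).card ≤ 2 := Finset.card_le_two
    have h6 := hlo i
    have h7 := hlo j
    omega
  have h1 : ∀ i ∈ f.vars, ∀ j ∈ f.vars, i ≠ j → j ∉ (pderiv i f).vars →
      (i ∉ g.vars ∧ j ∉ g.vars) ∨ (i ∉ h.vars ∧ j ∉ h.vars) := by
    intro i hi j hj hij hij2
    obtain ⟨l, hl, hli, hlj, hl1, hl2⟩ := hex i j
    rcases tvb E f g h i j l hij hli.symm hlj.symm hi hj hl hij2 hl1 hl2 hfg with h3 | h3
    · exact Or.inl ⟨h3.1, h3.2.1⟩
    · exact Or.inr ⟨h3.1, h3.2.1⟩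
  have h2 : ∀ i ∈ f.vars, ∀ j ∈ f.vars,
      (i ∉ g.vars ∧ j ∉ g.vars) ∨ (i ∉ h.vars ∧ j ∉ h.vars) := by
    intro i hi j hj
    obtain ⟨l, hl, hli, hlj, hl1, hl2⟩ := hex i j
    have h3 := h1 i hi l hl hli.symm hl1
    have h4 := h1 l hl j hj hlj (fun h => hl2 (hsy _ _ h))
    have h5 := (hv l).1 hl
    rcases h3 with h3 | h3
    · rcases h4 with h4 | h4
      · exact Or.inl ⟨h3.1, h4.2⟩
      · exact absurd h5 (by rintro (h6 | h6); exacts [h3.2 h6, h4.1 h6])
    · rcases h4 with h4 | h4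
      · exact absurd h5 (by rintro (h6 | h6); exacts [h4.1 h6, h3.2 h6])
      · exact Or.inr ⟨h3.1, h4.2⟩
  by_cases hge : g.vars = ∅
  · have h3 : i0 ∉ g.vars := by
      rw [hge]
      exact Finset.notMem_empty _
    rw [pderiv_eq_zero_of_notMem_vars h3, vars_0]
    exact Nat.zero_le _
  by_cases hhe : h.vars = ∅
  · have h3 : h = C (coeff 0 h) := vars_eq_empty_iff_eq_C.1 hhe
    have h4 : coeff 0 h ≠ 0 := by
      intro h5
      rw [h5, map_zero] at h3
      exact hh0 h3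
    have h5 : pderiv i0 f = C (coeff 0 h) * pderiv i0 g := by
      rw [hfg]
      conv_lhs => rw [h3]
      rw [mul_comm g, pderiv_C_mul]
    have h6 := hlo i0
    rw [h5, vars_C_mul (coeff 0 h) h4 (pderiv i0 g)] at h6
    omega
  exfalso
  obtain ⟨i, hi⟩ := Finset.nonempty_iff_ne_empty.2 hge
  obtain ⟨j, hj⟩ := Finset.nonempty_iff_ne_empty.2 hhe
  rcases h2 i ((hv i).2 (Or.inl hi)) j ((hv j).2 (Or.inr hj)) with h3 | h3
  · exact h3.1 hi
  · exact h3.2 hj

end Pool.Agent.PXE.H60
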